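import Pool.Agent.Helper79.PN.Lem

/-! PEN: the tilings define abstract tiling data. -/

set_option autoImplicit false

open scoped Classical

namespace Pool.Agent.Helper35.PN

open Pool.Agent.Helper79.PN

theorem pen_z5 : zeta ^ 5 = 1 := by
  unfold zeta
  rw [← Complex.exp_nat_mul]
  have h : ((5 : ℕ) : ℂ) * (2 * Real.pi * Complex.I / 5) = 2 * Real.pi * Complex.I := by
    push_cast; ring
  rw [h, Complex.exp_two_pi_mul_I]

theorem pen_conj : (starRingEnd ℂ) zeta * zeta = 1 := by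
  unfold zeta
  rw [← Complex.exp_conj, ← Complex.exp_add]
  have h : (starRingEnd ℂ) (2 * Real.pi * Complex.I / 5) + 2 * Real.pi * Complex.I / 5 = 0 := by
    simp only [map_div₀, map_mul, Complex.conj_ofReal, Complex.conj_I, map_ofNat]
    ring
  rw [h, Complex.exp_zero]

theorem pen_add (i j : ZMod 5) : zeta ^ (i + j).val = zeta ^ i.val * zeta ^ j.val := by
  rw [← pow_add, pow_eq_pow_mod (i.val + j.val) pen_z5, ← ZMod.val_add]

theorem pen_neg (j : ZMod 5) : (starRingEnd ℂ) (zeta ^ j.val) = zeta ^ (-j).val := by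
  have h1 : (starRingEnd ℂ) (zeta ^ j.val) * zeta ^ j.val = 1 := by
    rw [map_pow, ← mul_pow, pen_conj, one_pow]
  have h2 : zeta ^ (-j).val * zeta ^ j.val = 1 := by
    rw [← pen_add, neg_add_cancel]
    simp
  have h3 : zeta ^ j.val ≠ 0 := by
    intro h
    rw [h, mul_zero] at h1
    exact zero_ne_one h1
  exact mul_right_cancel₀ h3 (h1.trans h2.symm)

theorem pen_re (k : ℕ) : (zeta ^ k).re = Real.cos (2 * Real.pi * k / 5) := by
  unfold zeta
  rw [← Complex.exp_nat_mul]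
  have h : (k : ℂ) * (2 * Real.pi * Complex.I / 5) =
      ((2 * Real.pi * k / 5 : ℝ) : ℂ) * Complex.I := by
    push_cast; ring
  rw [h, Complex.exp_ofReal_mul_I_re]

theorem pen_c1 : Real.cos (2 * Real.pi / 5) = (g - 1) / 2 := by
  have h : 2 * Real.pi / 5 = 2 * (Real.pi / 5) := by ring
  rw [h, Real.cos_two_mul, Real.cos_pi_div_five]
  have h5 : √5 * √5 = 5 := Real.mul_self_sqrt (by norm_num)
  unfold g
  linear_combination (1 / 8) * h5

theorem pen_c2 : Real.cos (4 * Real.pi / 5) = -g / 2 := by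
  have h : 4 * Real.pi / 5 = Real.pi - Real.pi / 5 := by ring
  rw [h, Real.cos_pi_sub, Real.cos_pi_div_five]
  unfold g
  ring

theorem pen_cc (k : ZMod 5) : (zeta ^ k.val).re = cc k := by
  rw [pen_re]
  have hk : k = 0 ∨ k = 1 ∨ k = 2 ∨ k = 3 ∨ k = 4 := by revert k; decide
  rcases hk with rfl | rfl | rfl | rfl | rfl
  · rw [cc0]
    simp
  · rw [cc1, show ((1 : ZMod 5).val) = 1 from rfl, Nat.cast_one, mul_one, pen_c1]
  · rw [cc2, show ((2 : ZMod 5).val) = 2 from rfl, ← pen_c2]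
    congr 1
    push_cast; ring
  · rw [cc3, show ((3 : ZMod 5).val) = 3 from rfl, ← pen_c2]
    rw [← Real.cos_two_pi_sub]
    congr 1
    push_cast; ring
  · rw [cc4, show ((4 : ZMod 5).val) = 4 from rfl, ← pen_c1]
    rw [← Real.cos_two_pi_sub]
    congr 1
    push_cast; ring

theorem pen_yy (θ : ℂ) (K : Lam) (i : ZMod 5) :
    yy θ (K + e i) = yy θ K + zeta ^ i.val := by
  unfold yy
  rw [add_assoc]
  congr 1
  have h : ∀ k : ZMod 5, (((K + e i) k : ℤ) : ℂ) * zeta ^ k.val =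
      ((K k : ℤ) : ℂ) * zeta ^ k.val + (if k = i then zeta ^ k.val else 0) := by
    intro k
    rw [Pi.add_apply]
    unfold e
    rw [Pi.single_apply]
    by_cases hk : k = i
    · simp only [hk, if_true]
      push_cast; ring
    · simp only [hk, if_false]
      push_cast; ring
  rw [Finset.sum_congr rfl (fun k _ => h k), Finset.sum_add_distrib]
  congr 1
  rw [Finset.sum_ite_eq' Finset.univ i]
  simp

theorem pen_lvl (K : Lam) (i : ZMod 5) : lvl (K + e i) = lvl K + 1 := by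
  unfold lvl
  have h : ∀ k : ZMod 5, (K + e i) k = K k + (if k = i then 1 else 0) := by
    intro k
    rw [Pi.add_apply]
    unfold e
    rw [Pi.single_apply]
  rw [Finset.sum_congr rfl (fun k _ => h k), Finset.sum_add_distrib]
  congr 1
  rw [Finset.sum_ite_eq' Finset.univ i]
  simp

theorem pen_hadd (θ : ℂ) (K : Lam) (i j : ZMod 5) :
    hh θ (K + e i) j = hh θ K j + cc (i - j) := by
  unfold hh
  rw [pen_yy, add_mul, Complex.add_re]
  congr 1
  rw [pen_neg, ← pen_add, ← sub_eq_add_neg, pen_cc]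

theorem pen_rel (θ : ℂ) (K : Lam) (j : ZMod 5) :
    hh θ K (j + 1) + hh θ K (j - 1) = (g - 1) * hh θ K j := by
  have h1 : (starRingEnd ℂ) (zeta ^ (j + 1).val) + (starRingEnd ℂ) (zeta ^ (j - 1).val) =
      ((g - 1 : ℝ) : ℂ) * (starRingEnd ℂ) (zeta ^ j.val) := by
    rw [pen_neg, pen_neg, pen_neg]
    have h2 : -(j + 1) = -j + (-1) := by ring
    have h3 : -(j - 1) = -j + 1 := by ring
    rw [h2, h3, pen_add, pen_add, ← mul_add, mul_comm]
    congr 1
    rw [← pen_neg 1]
    have h4 : (starRingEnd ℂ) (zeta ^ (1 : ZMod 5).val) + zeta ^ (1 : ZMod 5).val =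
        ((2 * (zeta ^ (1 : ZMod 5).val).re : ℝ) : ℂ) := by
      rw [add_comm, Complex.add_conj]
    rw [h4, pen_cc, cc1]
    congr 1
    ring
  unfold hh
  rw [← Complex.add_re, ← mul_add, h1]
  have h5 : yy θ K * (((g - 1 : ℝ) : ℂ) * (starRingEnd ℂ) (zeta ^ j.val)) =
      ((g - 1 : ℝ) : ℂ) * (yy θ K * (starRingEnd ℂ) (zeta ^ j.val)) := by ring
  rw [h5, Complex.re_ofReal_mul]

theorem st_PEN : ST_PEN := by
  intro θ hθ
  refine ⟨⟨lvl, hh θ, pen_lvl, pen_hadd θ, pen_rel θ, fun K j => (hθ K j).1,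
    fun K j => (hθ K j).2.1, fun K j => (hθ K j).2.2.1, fun K j => (hθ K j).2.2.2⟩,
    fun K => rfl, fun K j => rfl, fun K => Iff.rfl⟩

end Pool.Agent.Helper35.PN
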